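import Pool.Agent.R179.Per.Final

/-!
`MP_3836fe_co`, Q1: the largest `n` such that the perimeter of the union of `n` closed unit disks of
the plane does not increase under contractions of the centres is `N = 4`.

The perimeter is the one-dimensional Hausdorff measure of the topological boundary.
-/

open MeasureTheory Metric

namespace Pool.Agent.Results.MP_3836fe_co.LargestN

theorem result :
    IsGreatest {n : ℕ | 1 ≤ n ∧ ∀ p q : Fin n → EuclideanSpace ℝ (Fin 2),
      (∀ i j, dist (q i) (q j) ≤ dist (p i) (p j)) →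
      Measure.hausdorffMeasure 1 (frontier (⋃ i, closedBall (q i) 1)) ≤
        Measure.hausdorffMeasure 1 (frontier (⋃ i, closedBall (p i) 1))} 4 ∧
    ∀ n : ℕ, (∀ p q : Fin n → EuclideanSpace ℝ (Fin 2),
      (∀ i j, dist (q i) (q j) ≤ dist (p i) (p j)) →
      Measure.hausdorffMeasure 1 (frontier (⋃ i, closedBall (q i) 1)) ≤
        Measure.hausdorffMeasure 1 (frontier (⋃ i, closedBall (p i) 1))) ↔ n ≤ 4 := by
  refine ⟨⟨⟨by norm_num, Pool.Agent.R179.Per.P_four⟩, ?_⟩, Pool.Agent.R179.Per.P_iff⟩
  rintro n ⟨_, hn⟩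
  exact (Pool.Agent.R179.Per.P_iff n).mp hn

end Pool.Agent.Results.MP_3836fe_co.LargestN
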